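import Pool.Agent.H.MP_4ac55f_gt.CaseB

/-! # Homogeneous threefolds: Ricci pinching and convergence of the mean curvature flow -/

open scoped InnerProductSpace Topology
open Filter Set Pool.Agent.H4ac

namespace Pool.Agent.Results.MP_4ac55f_gt.HomogeneousThreefolds

/-- Let SU(2) act by isometries on the space form of curvature `c` (any dimension), and let the
orbit of `P0` be three dimensional and satisfy the Ricci pinching condition.  Then the mean curvature
flow of the orbit has a unique maximal solution and converges either in finite time to a round point,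
or, when `c > 0`, to a totally geodesic three sphere as time goes to infinity. -/
theorem result {E : Type} [NormedAddCommGroup E] [InnerProductSpace ℝ E] [FiniteDimensional ℝ E]
    (A : Fin 3 → E →ₗ[ℝ] E) (hA : IsSU2 A) (c : ℝ) (P0 : E × ℝ) (hP : IsPoint c P0)
    (hli : LinearIndependent ℝ (fun a => A a P0.1)) (hpin : Pinched c A P0) :
    (∃ T : ℝ, 0 < T ∧ ∃ P : ℝ → E × ℝ, P 0 = P0 ∧ IsMCF c A (Ico 0 T) P ∧
      (∀ T' : ℝ, 0 < T' → ∀ Q : ℝ → E × ℝ, Q 0 = P0 → IsMCF c A (Ico 0 T') Q →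
        T' ≤ T ∧ ∀ t ∈ Ico 0 T', Q t = P t) ∧
      ∃ (L : E × ℝ) (w : E), IsPoint c L ∧ (∀ a, A a L.1 = 0) ∧
        Tendsto P (𝓝[<] T) (𝓝 L) ∧ IsRound A w ∧
        Tendsto (fun t => ‖(P t - L).1‖⁻¹ • (P t - L)) (𝓝[<] T) (𝓝 (w, 0))) ∨
    (0 < c ∧ ∃ P : ℝ → E × ℝ, P 0 = P0 ∧ IsMCF c A (Ici 0) P ∧
      (∀ T' : ℝ, 0 < T' → ∀ Q : ℝ → E × ℝ, Q 0 = P0 → IsMCF c A (Ico 0 T') Q →
        ∀ t ∈ Ico 0 T', Q t = P t) ∧
      ∃ w : E, IsRound A w ∧ Tendsto P atTop (𝓝 ((Real.sqrt c)⁻¹ • w, 0))) := by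
  obtain ⟨h1, h2⟩ := static hA hP hli hpin
  rcases lt_or_ge (c * rho A P0.1) 1 with hc | hc
  · exact Or.inl (caseA hA hP h1 h2 hc)
  · exact Or.inr (caseB hA hP h1 h2 hc)

end Pool.Agent.Results.MP_4ac55f_gt.HomogeneousThreefolds
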