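import Pool.Agent.H.MP_4ac55f_gt.RP.Main

/-!
# The Ricci pinching question for the mean curvature flow has a negative answer

`n = 3`, `q = 4`, `c = 0`: the immersion `F0 (x', x₄) = (cos x₄ x', sin x₄ x', x₄² / 2)` of the unit sphere
`S³ ⊂ ℝ³ × ℝ` in `ℝ³ × ℝ³ × ℝ = ℝ⁷` induces the round metric, so its Ricci curvature is `2`, and
`9 ≤ |H|² ≤ 17 < 18`: the pinching hypothesis `Ric > (n - 2) |H|² / n²` holds. But every solution of the mean
curvature flow starting at `F0` maps the two poles to the same point at every time, so no reparametrised,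
rescaled, translated sequence of its maps converges in `C¹` to a round sphere.

The definitions (`ext`, `IsFrame`, `mcv`, `ric`, `Imm`, `IsMCF`, `RoundLimit`, `F0`, `N`) are in
`Pool.Agent.H.MP_4ac55f_gt.RP.Def`.
-/

set_option autoImplicit false

open scoped InnerProductSpace ContDiff
open Set Metric

namespace Pool.Agent.Results.MP_4ac55f_gt.RicciPinchingFails

open Pool.Agent.H.MP_4ac55f_gt.RP

/-- the pinching hypothesis of Q1 in a euclidean space (`c = 0`) for an immersion `G` of the unit sphere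
(of dimension `n`): `|H|² > 0` and `Ric (u, u) > (n - 2) |H|² / n²` at every point, for every tangent vector
`u` which is a unit vector of the induced metric -/
def Pinched {V W : Type*} [NormedAddCommGroup V] [InnerProductSpace ℝ V] [NormedAddCommGroup W]
    [InnerProductSpace ℝ W] (n : ℕ) (G : V → W) : Prop :=
  ∀ x : V, ‖x‖ = 1 → ∀ e : Fin n → V, IsFrame G x e → 0 < ‖mcv G x e‖ ^ 2 ∧
    ∀ u : V, ⟪x, u⟫_ℝ = 0 → ‖d G x u‖ = 1 →
      ((n : ℝ) - 2) * (1 / (n : ℝ) ^ 2 * ‖mcv G x e‖ ^ 2) < ric G x e u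

theorem result :
    ContDiffOn ℝ ∞ (ext F0) {0}ᶜ ∧ Imm (ext F0) ∧
    (∀ x : EuclideanSpace ℝ (Fin 4), ‖x‖ = 1 →
      ∃ e : Fin 3 → EuclideanSpace ℝ (Fin 4), IsFrame (ext F0) x e) ∧
    (∀ x v w : EuclideanSpace ℝ (Fin 4), ‖x‖ = 1 → ⟪x, v⟫_ℝ = 0 → ⟪x, w⟫_ℝ = 0 →
      ⟪d (ext F0) x v, d (ext F0) x w⟫_ℝ = ⟪v, w⟫_ℝ) ∧
    Pinched 3 (ext F0) ∧
    ∀ (T : EReal) (F : ℝ → sphere (0 : EuclideanSpace ℝ (Fin 4)) 1 → EuclideanSpace ℝ (Fin 7)),
      IsMCF 3 T F → F 0 = F0 →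
        (∀ t ∈ I T, F t N = F t (-N)) ∧ ∀ T' : ℝ, T = (T' : EReal) → ¬ RoundLimit T' F := by
  refine ⟨ext_smooth G0_smooth (fun x => rfl), F0_imm, fun x hx => ?_, fun x v w hx hv hw => ?_,
    fun x hx e he => ⟨?_, fun u hu hu1 => ?_⟩, fun T F hF h0 => ⟨fun t ht => poles hF h0 ht, ?_⟩⟩
  · exact frame_exists (by simp) F0_imm hx
  · exact F0_isom hx hv hw
  · have := (F0_bounds hx he).1
    linarith
  · have h1 := (F0_bounds hx he).2
    have h2 : ‖u‖ ^ 2 = 1 := by
      rw [← real_inner_self_eq_norm_sq, ← F0_isom hx hu hu, real_inner_self_eq_norm_sq, hu1, one_pow]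
    rw [F0_ric hx he hu, h2]
    push_cast
    linarith
  · rintro T' rfl
    exact not_round hF h0

end Pool.Agent.Results.MP_4ac55f_gt.RicciPinchingFails
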